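import Mathlib
import Pool.Agent.TH7.DH.VT

set_option autoImplicit false

namespace Pool.Agent.Results.MP_018e2a_an.ThirdRecurrence

open Finset MeasureTheory

/-- `Tsq T γ` is `T_{γ×γ}`, the composition of all `T i j` with `i, j ∈ γ` (each pair once). -/
noncomputable def Tsq {X : Type} (T : ℕ → ℕ → X → X) (γ : Finset ℕ) : X → X :=
  List.foldr
    (fun (i : ℕ) (f : X → X) =>
      (List.foldr (fun (j : ℕ) (g : X → X) => T i j ∘ g) (id : X → X) γ.toList) ∘ f)
    (id : X → X) γ.toList

section Alg

variable {X : Type} (T : ℕ → ℕ → X → X)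

/-- the submonoid of self-maps generated by the `T i j` -/
def Mon : Submonoid (Function.End X) :=
  Submonoid.closure (Set.range fun p : ℕ × ℕ => (T p.1 p.2 : Function.End X))

variable (hT : ∀ i j k l, T i j ∘ T k l = T k l ∘ T i j)

include hT in
lemma mon_comm (a b : Mon T) : a * b = b * a := by
  have h : IsMulCommutative (Mon T) :=
    Submonoid.isMulCommutative_closure (Function.End X) (by
      rintro _ ⟨p, rfl⟩ _ ⟨q, rfl⟩
      exact hT p.1 p.2 q.1 q.2)
  exact h.is_comm.comm a b

/-- it is commutative -/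
@[reducible] def monComm : CommMonoid (Mon T) :=
  { (inferInstance : Monoid (Mon T)) with mul_comm := mon_comm T hT }

/-- generators -/
def gen (p : ℕ × ℕ) : Mon T := ⟨(T p.1 p.2 : Function.End X), Submonoid.subset_closure ⟨p, rfl⟩⟩

/-- product over a finite set of pairs -/
noncomputable def PB (B : Finset (ℕ × ℕ)) : Mon T :=
  letI := monComm T hT
  ∏ p ∈ B, gen T p

lemma foldr_comp_eq (l : List ℕ) (g : ℕ → Mon T) :
    List.foldr (fun (j : ℕ) (f : X → X) => ((g j : Mon T) : Function.End X) ∘ f) (id : X → X) l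
      = (((l.map g).prod : Mon T) : Function.End X) := by
  induction l with
  | nil => simp; rfl
  | cons a l ih =>
    rw [List.foldr_cons, ih, List.map_cons, List.prod_cons, Submonoid.coe_mul]
    rfl

lemma Tsq_eq (γ : Finset ℕ) : Tsq T γ = ((PB T hT (γ ×ˢ γ) : Mon T) : Function.End X) := by
  let _ := monComm T hT
  unfold Tsq
  have h1 : ∀ i : ℕ, List.foldr (fun (j : ℕ) (g : X → X) => T i j ∘ g) (id : X → X) γ.toList
      = (((γ.toList.map fun j => gen T (i, j)).prod : Mon T) : Function.End X) := fun i =>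
    foldr_comp_eq T γ.toList fun j => gen T (i, j)
  simp only [h1]
  have h2 := foldr_comp_eq T γ.toList fun i => (γ.toList.map fun j => gen T (i, j)).prod
  refine h2.trans ?_
  congr 1
  have h3 : (∏ p ∈ γ ×ˢ γ, gen T p) = ∏ i ∈ γ, ∏ j ∈ γ, gen T (i, j) := by
    rw [Finset.prod_product]
  have h4 : PB T hT (γ ×ˢ γ) = ∏ p ∈ γ ×ˢ γ, gen T p := rfl
  rw [h4, h3, ← Finset.prod_map_toList]
  congr 1
  refine List.map_congr_left fun i _ => ?_
  rw [← Finset.prod_map_toList]

lemma PB_union (B C : Finset (ℕ × ℕ)) (h : Disjoint B C) :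
    ((PB T hT (B ∪ C) : Mon T) : Function.End X)
      = (PB T hT C : Function.End X) * (PB T hT B : Function.End X) := by
  let _ := monComm T hT
  rw [← Submonoid.coe_mul]
  congr 1
  have : PB T hT (B ∪ C) = (∏ p ∈ B, gen T p) * ∏ p ∈ C, gen T p :=
    Finset.prod_union h
  rw [this, mul_comm]
  rfl

lemma PB_mp [MeasurableSpace X] (μ : Measure X)
    (hm : ∀ i j, MeasurePreserving (T i j) μ μ) (x : Mon T) :
    MeasurePreserving ((x : Mon T) : Function.End X) μ μ := by
  obtain ⟨x, hx⟩ := x
  induction hx using Submonoid.closure_induction with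
  | mem y hy =>
    obtain ⟨p, rfl⟩ := hy
    exact hm p.1 p.2
  | one => exact MeasurePreserving.id μ
  | mul y z _ _ hy hz => exact hy.comp hz

end Alg

section Count

open Pool.Agent.TH7.DH.VT

variable {N : ℕ} (F : Fin N → Finset ℕ)

/-- blow-up of a set of pairs of labels along disjoint sets -/
def blow (B : Finset (Fin 2 → Fin N)) : Finset (ℕ × ℕ) :=
  B.biUnion fun e => F (e 0) ×ˢ F (e 1)

lemma mem_blow {B : Finset (Fin 2 → Fin N)} {p : ℕ × ℕ} :
    p ∈ blow F B ↔ ∃ e ∈ B, p.1 ∈ F (e 0) ∧ p.2 ∈ F (e 1) := by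
  simp [blow]

lemma blow_union (B C : Finset (Fin 2 → Fin N)) : blow F (B ∪ C) = blow F B ∪ blow F C := by
  ext p
  simp only [mem_union, mem_blow]
  constructor
  · rintro ⟨e, he | he, h⟩
    · exact Or.inl ⟨e, he, h⟩
    · exact Or.inr ⟨e, he, h⟩
  · rintro (⟨e, he, h⟩ | ⟨e, he, h⟩)
    · exact ⟨e, Or.inl he, h⟩
    · exact ⟨e, Or.inr he, h⟩

lemma blow_disj (hF : ∀ a b, a ≠ b → Disjoint (F a) (F b)) {B C : Finset (Fin 2 → Fin N)}
    (h : Disjoint B C) : Disjoint (blow F B) (blow F C) := by
  rw [Finset.disjoint_left]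
  intro p hp hq
  rw [mem_blow] at hp hq
  obtain ⟨e, he, h0, h1⟩ := hp
  obtain ⟨e', he', h0', h1'⟩ := hq
  have key : ∀ {n : ℕ} {a b : Fin N}, n ∈ F a → n ∈ F b → a = b := by
    intro n a b ha hb
    by_contra hab
    exact (Finset.disjoint_left.1 (hF a b hab) ha) hb
  have : e = e' := by
    funext t
    fin_cases t
    · exact key h0 h0'
    · exact key h1 h1'
  subst this
  exact (Finset.disjoint_left.1 h he) he'

lemma blow_cube (γ : Finset (Fin N)) : blow F (cube 2 γ) = (γ.biUnion F) ×ˢ (γ.biUnion F) := by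
  ext p
  rw [mem_blow, mem_product, mem_biUnion, mem_biUnion]
  constructor
  · rintro ⟨e, he, h0, h1⟩
    rw [cube, Fintype.mem_piFinset] at he
    exact ⟨⟨e 0, he 0, h0⟩, ⟨e 1, he 1, h1⟩⟩
  · rintro ⟨⟨a, ha, h0⟩, ⟨b, hb, h1⟩⟩
    refine ⟨![a, b], ?_, h0, h1⟩
    rw [cube, Fintype.mem_piFinset]
    intro t
    fin_cases t
    · exact ha
    · exact hb

end Count

/-- **Quadratic IP recurrence for sets of measure greater than `1/3`, uniformly and inside every
IP-ring.** For every `α > 1/3` there are `N` and `c > 0` such that for every probability space,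
all commuting measure preserving maps `T i j` and every measurable `A` of measure at least `α`,
and all pairwise disjoint nonempty finite sets `F 0, …, F (N-1)` of naturals, some union `γ` of
some of the `F i` (at least one) has `μ (A ∩ T_{γ×γ}⁻¹ A) ≥ c`. -/
theorem result : ∀ α : ℝ, 1 / 3 < α → ∃ N : ℕ, ∃ c : ℝ, 0 < c ∧
    ∀ (X : Type) [MeasurableSpace X] (μ : Measure X) [IsProbabilityMeasure μ]
      (T : ℕ → ℕ → X → X),
      (∀ i j, MeasurePreserving (T i j) μ μ) →
      (∀ i j k l, T i j ∘ T k l = T k l ∘ T i j) →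
      ∀ A : Set X, MeasurableSet A → α ≤ μ.real A →
      ∀ F : Fin N → Finset ℕ, (∀ a, (F a).Nonempty) → (∀ a b, a ≠ b → Disjoint (F a) (F b)) →
        ∃ I : Finset (Fin N), I.Nonempty ∧
          c ≤ μ.real (A ∩ Tsq T (I.biUnion F) ⁻¹' A) := by
  classical
  intro α hα
  -- a density between `1/3` and `α`
  set δ : ℝ := (1 / 3 + α) / 2 with hδ
  have hδ1 : ((2 : ℝ) ^ (2 - 1) - 1) / (2 ^ 2 - 1) < δ := by
    rw [hδ]; norm_num; linarith
  have hδα : δ < α := by rw [hδ]; linarith
  have hδ0 : 0 < δ := by rw [hδ]; linarith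
  obtain ⟨N, hN⟩ :=
    Pool.Agent.TH7.DH.VT.result 2 (by norm_num) δ hδ1
  have hN := hN N le_rfl
  set Ω := Finset (Fin 2 → Fin N) with hΩ
  set K : ℝ := (Fintype.card (Ω × Finset (Fin N)) : ℝ) with hK
  have hKpos : 0 < K := by
    rw [hK]
    have : 0 < Fintype.card (Ω × Finset (Fin N)) :=
      Fintype.card_pos_iff.2 ⟨(∅, ∅)⟩
    exact_mod_cast this
  refine ⟨N, (α - δ) / K, div_pos (by linarith) hKpos, ?_⟩
  intro X _ μ _ T hm hc A hA hAα F hFne hFd
  -- the transformations
  set P : Ω → X → X := fun B => (PB T hc (blow F B) : Function.End X) with hP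
  have hPm : ∀ B, MeasurePreserving (P B) μ μ := fun B => PB_mp T μ hm _
  set Sx : X → Finset Ω := fun x => univ.filter fun B => P B x ∈ A with hSx
  -- the set where the family is dense
  set G : Set X := {x | δ * (2 : ℝ) ^ (N ^ 2) < (Sx x).card} with hG
  -- each point of `G` gives a pair
  set E : Ω × Finset (Fin N) → Set X := fun q =>
    P q.1 ⁻¹' (A ∩ Tsq T (q.2.biUnion F) ⁻¹' A) with hE
  have hTsqm : ∀ γ : Finset ℕ, MeasurePreserving (Tsq T γ) μ μ := by
    intro γ
    rw [Tsq_eq T hc]
    exact PB_mp T μ hm _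
  have hEm : ∀ q, μ.real (E q) = μ.real (A ∩ Tsq T (q.2.biUnion F) ⁻¹' A) := by
    intro q
    have hms : MeasurableSet (A ∩ Tsq T (q.2.biUnion F) ⁻¹' A) :=
      hA.inter ((hTsqm _).measurable hA)
    rw [Measure.real, Measure.real, hE]
    simp only
    rw [(hPm q.1).measure_preimage hms.nullMeasurableSet]
  have hcov : G ⊆ ⋃ q ∈ (univ.filter fun q : Ω × Finset (Fin N) => q.2.Nonempty), E q := by
    intro x hx
    obtain ⟨B, hB, γ, hγ, hd, hU⟩ := hN (Sx x) hx
    refine Set.mem_iUnion₂.2 ⟨(B, γ), by simpa using hγ, ?_⟩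
    have h1 : P B x ∈ A := (mem_filter.1 hB).2
    have h2 : P (B ∪ Pool.Agent.TH7.DH.VT.cube 2 γ) x ∈ A :=
      (mem_filter.1 hU).2
    refine ⟨h1, ?_⟩
    change Tsq T (γ.biUnion F) (P B x) ∈ A
    have h3 : P (B ∪ Pool.Agent.TH7.DH.VT.cube 2 γ) x
        = Tsq T (γ.biUnion F) (P B x) := by
      rw [hP]
      simp only
      rw [blow_union, PB_union T hc _ _ (blow_disj F hFd hd), blow_cube, Tsq_eq T hc]
      rfl
    rw [← h3]
    exact h2
  -- the measure of `G`
  have hGm : MeasurableSet G := by
    have hmeas : Measurable fun x => ((Sx x).card : ℝ) := by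
      have : (fun x => ((Sx x).card : ℝ)) =
          fun x => ∑ B : Ω, Set.indicator (P B ⁻¹' A) (fun _ => (1 : ℝ)) x := by
        funext x
        rw [hSx]
        simp only
        rw [Finset.card_filter]
        push_cast
        refine Finset.sum_congr rfl fun B _ => ?_
        by_cases h : P B x ∈ A
        · simp [h]
        · simp [h]
      rw [this]
      refine Finset.measurable_sum _ fun B _ => ?_
      exact measurable_const.indicator ((hPm B).measurable hA)
    exact measurableSet_lt measurable_const hmeas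
  have hGμ : α - δ ≤ μ.real G := by
    have hint : ∫ x, ∑ B : Ω, Set.indicator (P B ⁻¹' A) (fun _ => (1 : ℝ)) x ∂μ
        = (Fintype.card Ω : ℝ) * μ.real A := by
      rw [integral_finsetSum]
      · have : ∀ B ∈ (univ : Finset Ω),
            ∫ x, Set.indicator (P B ⁻¹' A) (fun _ => (1 : ℝ)) x ∂μ = μ.real A := by
          intro B _
          rw [integral_indicator ((hPm B).measurable hA), setIntegral_const, smul_eq_mul, mul_one,
            Measure.real, Measure.real, (hPm B).measure_preimage hA.nullMeasurableSet]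
        rw [Finset.sum_congr rfl this, Finset.sum_const, card_univ, nsmul_eq_mul]
      · intro B _
        exact (integrable_const (1 : ℝ)).indicator ((hPm B).measurable hA)
    have hcardΩ : (Fintype.card Ω : ℝ) = 2 ^ (N ^ 2) := by
      have h0 : Fintype.card (Finset (Fin 2 → Fin N)) = 2 ^ (N ^ 2) := by
        rw [Fintype.card_finset]
        simp
      have h1 : Fintype.card Ω = 2 ^ (N ^ 2) := h0
      rw [h1]
      push_cast
      rfl
    set W : ℝ := (2 : ℝ) ^ (N ^ 2) with hW
    have hWpos : 0 < W := by rw [hW]; positivity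
    have hcard : ∀ x, ((Sx x).card : ℝ)
        = ∑ B : Ω, Set.indicator (P B ⁻¹' A) (fun _ => (1 : ℝ)) x := by
      intro x
      rw [hSx]
      simp only
      rw [Finset.card_filter]
      push_cast
      refine Finset.sum_congr rfl fun B _ => ?_
      by_cases h : P B x ∈ A
      · simp [h]
      · simp [h]
    have hle : ∀ x, ∑ B : Ω, Set.indicator (P B ⁻¹' A) (fun _ => (1 : ℝ)) x
        ≤ W * δ + W * Set.indicator G (fun _ => (1 : ℝ)) x := by
      intro x
      rw [← hcard x]
      have hub : ((Sx x).card : ℝ) ≤ W := by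
        rw [← hcardΩ]
        exact_mod_cast Finset.card_le_univ _
      by_cases hx : x ∈ G
      · rw [Set.indicator_of_mem hx]
        have : 0 ≤ W * δ := by positivity
        linarith
      · rw [Set.indicator_of_notMem hx]
        have : ((Sx x).card : ℝ) ≤ δ * W := not_lt.1 hx
        linarith
    have hmono := integral_mono (μ := μ)
      (f := fun x => ∑ B : Ω, Set.indicator (P B ⁻¹' A) (fun _ => (1 : ℝ)) x)
      (g := fun x => W * δ + W * Set.indicator G (fun _ => (1 : ℝ)) x)
      (integrable_finsetSum _ fun B _ =>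
        (integrable_const (1 : ℝ)).indicator ((hPm B).measurable hA))
      ((integrable_const _).add (((integrable_const (1 : ℝ)).indicator hGm).const_mul W)) hle
    rw [hint, integral_add (integrable_const _)
      (((integrable_const (1 : ℝ)).indicator hGm).const_mul W), integral_const,
      integral_const_mul, integral_indicator hGm, setIntegral_const, hcardΩ] at hmono
    simp only [smul_eq_mul, mul_one, probReal_univ, one_mul] at hmono
    have h5 : W * α ≤ W * μ.real A := mul_le_mul_of_nonneg_left hAα hWpos.le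
    have h6 : W * (α - δ) ≤ W * μ.real G := by linarith
    exact le_of_mul_le_mul_left h6 hWpos
  -- pigeonhole
  by_contra hcon
  push Not at hcon
  have hlt : ∀ q ∈ (univ.filter fun q : Ω × Finset (Fin N) => q.2.Nonempty),
      μ.real (E q) < (α - δ) / K := by
    intro q hq
    rw [hEm]
    exact hcon q.2 (mem_filter.1 hq).2
  have h7 : μ.real G ≤ ∑ q ∈ (univ.filter fun q : Ω × Finset (Fin N) => q.2.Nonempty),
      μ.real (E q) :=
    (measureReal_mono hcov (measure_ne_top _ _)).trans
      (measureReal_biUnion_finset_le _ _)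
  by_cases hemp : (univ.filter fun q : Ω × Finset (Fin N) => q.2.Nonempty).Nonempty
  · have h8 := Finset.sum_lt_sum_of_nonempty hemp hlt
    rw [Finset.sum_const, nsmul_eq_mul] at h8
    have h9 : ((univ.filter fun q : Ω × Finset (Fin N) => q.2.Nonempty).card : ℝ) ≤ K := by
      rw [hK]
      exact_mod_cast Finset.card_le_univ _
    have h10 : ((univ.filter fun q : Ω × Finset (Fin N) => q.2.Nonempty).card : ℝ)
        * ((α - δ) / K) ≤ α - δ := by
      calc _ ≤ K * ((α - δ) / K) :=
            mul_le_mul_of_nonneg_right h9 (div_nonneg (by linarith) hKpos.le)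
        _ = α - δ := by field_simp
    linarith
  · rw [Finset.not_nonempty_iff_eq_empty] at hemp
    rw [hemp, Finset.sum_empty] at h7
    linarith

end Pool.Agent.Results.MP_018e2a_an.ThirdRecurrence
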